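import Pool.Agent.helper47.VD.SpecA1
import Pool.Agent.helper73.VQ.VSH

/-!
Row `vd:AUNF` (MP_07c750_an, project VD): unfolding on `YS × V`.
-/

set_option autoImplicit false

open scoped ContDiff Topology InnerProductSpace ComplexConjugate ENNReal
open MeasureTheory Filter Set

namespace Pool.Agent.VD

noncomputable section

/-- unfolding for integrable invariant complex kernels -/
theorem AUNF_gen {Γ : Type} [Group Γ] [Countable Γ] {X Y : Type} [MeasurableSpace X] [MeasurableSpace Y] [MulAction Γ X] [MulAction Γ Y] (μ : Measure X) (ν : Measure Y)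
    [SigmaFinite μ] [SigmaFinite ν] (DX : Set X) (DY : Set Y)
    (hμ : ∀ γ : Γ, MeasurePreserving (fun x : X => γ • x) μ μ) (hν : ∀ γ : Γ, MeasurePreserving (fun y : Y => γ • y) ν ν)
    (hX : ∀ x : X, ∃! γ : Γ, γ • x ∈ DX) (hY : ∀ y : Y, ∃! γ : Γ, γ • y ∈ DY) (mX : MeasurableSet DX) (mY : MeasurableSet DY)
    (K : X → Y → ℂ) (hK : Measurable (Function.uncurry K)) (inv : ∀ (γ : Γ) x y, K (γ • x) (γ • y) = K x y)
    (hi : ∫⁻ x in DX, ∫⁻ y, ‖K x y‖ₑ ∂ν ∂μ ≠ ⊤) :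
    ∫ x in DX, ∫ y, K x y ∂ν ∂μ = ∫ y in DY, ∫ x, K x y ∂μ ∂ν := by
  have hpr : ∀ γ : Γ, MeasurePreserving (fun x : X × Y => γ • x) (μ.prod ν) (μ.prod ν) := fun γ =>
    (hμ γ).prod (hν γ)
  haveI : MeasurableConstSMul Γ (X × Y) := ⟨fun γ => (hpr γ).measurable⟩
  haveI : SMulInvariantMeasure Γ (X × Y) (μ.prod ν) := ⟨fun γ s hs => (hpr γ).measure_preimage hs.nullMeasurableSet⟩
  have hS : MeasurableSet (DX ×ˢ (univ : Set Y)) := mX.prod MeasurableSet.univ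
  have hT : MeasurableSet ((univ : Set X) ×ˢ DY) := MeasurableSet.univ.prod mY
  have hfS : IsFundamentalDomain Γ (DX ×ˢ (univ : Set Y)) (μ.prod ν) := by
    refine IsFundamentalDomain.mk' hS.nullMeasurableSet fun x => ?_
    obtain ⟨γ, hγ, hu⟩ := hX x.1
    exact ⟨γ, ⟨hγ, trivial⟩, fun γ' hγ' => hu γ' hγ'.1⟩
  have hfT : IsFundamentalDomain Γ ((univ : Set X) ×ˢ DY) (μ.prod ν) := by
    refine IsFundamentalDomain.mk' hT.nullMeasurableSet fun x => ?_
    obtain ⟨γ, hγ, hu⟩ := hY x.2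
    exact ⟨γ, ⟨trivial, hγ⟩, fun γ' hγ' => hu γ' hγ'.2⟩
  have hKi : ∀ (γ : Γ) (x : X × Y), Function.uncurry K (γ • x) = Function.uncurry K x := fun γ x => inv γ x.1 x.2
  have hmS : (μ.prod ν).restrict (DX ×ˢ (univ : Set Y)) = (μ.restrict DX).prod ν := by
    rw [← Measure.prod_restrict, Measure.restrict_univ]
  have hmT : (μ.prod ν).restrict ((univ : Set X) ×ˢ DY) = μ.prod (ν.restrict DY) := by
    rw [← Measure.prod_restrict, Measure.restrict_univ]
  have hint : IntegrableOn (Function.uncurry K) (DX ×ˢ (univ : Set Y)) (μ.prod ν) := by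
    rw [IntegrableOn, hmS]
    refine ⟨hK.aestronglyMeasurable, ?_⟩
    rw [HasFiniteIntegral, lintegral_prod _ hK.enorm.aemeasurable]
    exact lt_top_iff_ne_top.2 hi
  have hint2 : IntegrableOn (Function.uncurry K) ((univ : Set X) ×ˢ DY) (μ.prod ν) := (hfS.integrableOn_iff hfT hKi).1 hint
  have key := hfS.setIntegral_eq hfT hKi
  rw [IntegrableOn, hmS] at hint
  rw [IntegrableOn, hmT] at hint2
  rw [hmS, hmT, integral_prod _ hint, integral_prod_symm _ hint2] at key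
  exact key

theorem AUNF_proof (h1 : AMVI_stmt) (h2 : ADMD_stmt) : AUNF_stmt := by
  intro d Γ _ _ K k B G hK hG Λ F T hD
  obtain ⟨hc, -, -, hsv, -, hpv, -⟩ := h1 d Γ K k B G hK hG
  obtain ⟨hsY, hpY, -, -, -, hdm⟩ := h2 d Γ K k B G hK hG
  obtain ⟨mF, mDT, hF, hDT⟩ := hdm Λ F T hD
  haveI := hc
  haveI := hsv
  haveI := hsY
  haveI : Countable Λ := inferInstance
  have aY : ∀ κ : Λ, MeasurePreserving (fun y : YS Γ d => κ • y) (mY Γ d) (mY Γ d) := fun κ => hpY (κ : Γ)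
  have aV : ∀ κ : Λ, MeasurePreserving (fun z : V d => κ • z) (mv G) (mv G) := fun κ => hpv (κ : Γ)
  refine ⟨fun H hH hinv => ?_, fun H hH hinv hi => ?_⟩
  · exact VQ.VSH_swap (Γ := Λ) (mY Γ d) (mv G) (DT d T) F aY aV hDT hF mDT mF H hH fun κ y z => hinv (κ : Γ) κ.2 y z
  · exact AUNF_gen (Γ := Λ) (mY Γ d) (mv G) (DT d T) F aY aV hDT hF mDT mF H hH (fun κ y z => hinv (κ : Γ) κ.2 y z) hi

end

end Pool.Agent.VD
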