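import Pool.Agent.helper80.VD.SpecG

set_option autoImplicit false

open scoped ContDiff Topology InnerProductSpace
open MeasureTheory Filter Set

namespace Pool.Agent.VD

theorem GCH_hasFDeriv {d : ℕ} {G : V d → V d →L[ℝ] V d} (hG : IsMetric G) (x : V d) :
    HasFDerivAt G (fderiv ℝ G x) x :=
  ((hG.smooth.differentiable (by simp)) x).hasFDerivAt

theorem GCH_app {d : ℕ} {G : V d → V d →L[ℝ] V d} (hG : IsMetric G) (x u v : V d) :
    HasFDerivAt (fun y => ⟪G y u, v⟫_ℝ) ((innerSL ℝ v).comp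
      ((ContinuousLinearMap.apply ℝ (V d) u).comp (fderiv ℝ G x))) x := by
  have h1 : HasFDerivAt (fun y => G y u) ((ContinuousLinearMap.apply ℝ (V d) u).comp (fderiv ℝ G x)) x :=
    (ContinuousLinearMap.apply ℝ (V d) u).hasFDerivAt.comp x (GCH_hasFDeriv hG x)
  have h2 := (innerSL ℝ v).hasFDerivAt.comp x h1
  have h3 : (fun y => ⟪G y u, v⟫_ℝ) = (innerSL ℝ v) ∘ fun y => G y u := by
    funext y
    show ⟪G y u, v⟫_ℝ = ⟪v, G y u⟫_ℝ
    rw [real_inner_comm]
  rw [h3]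
  exact h2

theorem GCH_fd {d : ℕ} {G : V d → V d →L[ℝ] V d} (hG : IsMetric G) (x u v w : V d) :
    fderiv ℝ (fun y => ⟪G y u, v⟫_ℝ) x w = ⟪fderiv ℝ G x w u, v⟫_ℝ := by
  rw [(GCH_app hG x u v).fderiv]
  show ⟪v, fderiv ℝ G x w u⟫_ℝ = _
  rw [real_inner_comm]

theorem GCH_symm {d : ℕ} {G : V d → V d →L[ℝ] V d} (hG : IsMetric G) (x u v w : V d) :
    ⟪fderiv ℝ G x w u, v⟫_ℝ = ⟪fderiv ℝ G x w v, u⟫_ℝ := by
  rw [← GCH_fd hG, ← GCH_fd hG]
  have h3 : (fun y => ⟪G y u, v⟫_ℝ) = fun y => ⟪G y v, u⟫_ℝ := by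
    funext y
    rw [hG.symm y u v, real_inner_comm]
  rw [h3]

theorem GCH_grad {d : ℕ} {G : V d → V d →L[ℝ] V d} (hG : IsMetric G) (x u v w : V d) :
    ⟪gradient (fun y => ⟪G y u, v⟫_ℝ) x, w⟫_ℝ = ⟪fderiv ℝ G x w u, v⟫_ℝ := by
  rw [gradient, InnerProductSpace.toDual_symm_apply, GCH_fd hG]

theorem GCH_expand {d : ℕ} (a : V d) :
    a = ∑ i : Fin d, ⟪EuclideanSpace.single i (1 : ℝ), a⟫_ℝ • (EuclideanSpace.single i (1 : ℝ) : V d) := by
  have h := (EuclideanSpace.basisFun (Fin d) ℝ).sum_repr' a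
  simp only [EuclideanSpace.basisFun_apply] at h
  exact h.symm

theorem GCH_gradSum {d : ℕ} {G : V d → V d →L[ℝ] V d} (hG : IsMetric G) (x u v : V d) :
    gradient (fun y => ⟪G y u, v⟫_ℝ) x =
      ∑ i : Fin d, ⟪fderiv ℝ G x (EuclideanSpace.single i 1) u, v⟫_ℝ • (EuclideanSpace.single i (1 : ℝ) : V d) := by
  conv_lhs => rw [GCH_expand (gradient (fun y => ⟪G y u, v⟫_ℝ) x)]
  refine Finset.sum_congr rfl fun i _ => ?_
  rw [real_inner_comm, GCH_grad hG]

theorem GCH_chr {d : ℕ} {G : V d → V d →L[ℝ] V d} (hG : IsMetric G) (x u v : V d) :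
    Chr G x u v = IG G x ((1 / 2 : ℝ) • (fderiv ℝ G x u v + fderiv ℝ G x v u -
      ∑ i : Fin d, ⟪fderiv ℝ G x (EuclideanSpace.single i 1) u, v⟫_ℝ • (EuclideanSpace.single i (1 : ℝ) : V d))) := by
  rw [Chr, GCH_gradSum hG]
  rfl

theorem GCH_chrSymm {d : ℕ} {G : V d → V d →L[ℝ] V d} (hG : IsMetric G) (x u v : V d) :
    Chr G x u v = Chr G x v u := by
  rw [GCH_chr hG, GCH_chr hG, add_comm (fderiv ℝ G x u v)]
  congr 3
  refine Finset.sum_congr rfl fun i _ => ?_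
  rw [GCH_symm hG]

theorem GCH_lin {d : ℕ} {G : V d → V d →L[ℝ] V d} (hG : IsMetric G) (x u u' v : V d) (a : ℝ) :
    Chr G x (u + a • u') v = Chr G x u v + a • Chr G x u' v := by
  rw [GCH_chr hG, GCH_chr hG, GCH_chr hG, ← map_smul, ← map_add]
  congr 1
  rw [map_add, map_smul, ContinuousLinearMap.add_apply, ContinuousLinearMap.smul_apply, map_add, map_smul]
  have h1 : ∑ i : Fin d, ⟪fderiv ℝ G x (EuclideanSpace.single i 1) (u + a • u'), v⟫_ℝ •
        (EuclideanSpace.single i (1 : ℝ) : V d) =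
      ∑ i : Fin d, ⟪fderiv ℝ G x (EuclideanSpace.single i 1) u, v⟫_ℝ • (EuclideanSpace.single i (1 : ℝ) : V d) +
      a • ∑ i : Fin d, ⟪fderiv ℝ G x (EuclideanSpace.single i 1) u', v⟫_ℝ •
        (EuclideanSpace.single i (1 : ℝ) : V d) := by
    rw [Finset.smul_sum, ← Finset.sum_add_distrib]
    refine Finset.sum_congr rfl fun i _ => ?_
    rw [map_add, map_smul, inner_add_left, real_inner_smul_left, add_smul, mul_smul]
  rw [h1]
  module

theorem GCH_smooth {d : ℕ} {G : V d → V d →L[ℝ] V d} (hG : IsMetric G) (hIG : ContDiff ℝ ∞ (IG G)) :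
    ContDiff ℝ ∞ (fun q : V d × V d × V d => Chr G q.1 q.2.1 q.2.2) := by
  have hf : ContDiff ℝ ∞ (fderiv ℝ G) := hG.smooth.fderiv_right (m := ∞) (by simp)
  have h1 : ContDiff ℝ ∞ (fun q : V d × V d × V d => q.1) := contDiff_fst
  have h2 : ContDiff ℝ ∞ (fun q : V d × V d × V d => q.2.1) := contDiff_fst.comp contDiff_snd
  have h3 : ContDiff ℝ ∞ (fun q : V d × V d × V d => q.2.2) := contDiff_snd.comp contDiff_snd
  have hf1 : ContDiff ℝ ∞ (fun q : V d × V d × V d => fderiv ℝ G q.1) := hf.comp h1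
  have e : (fun q : V d × V d × V d => Chr G q.1 q.2.1 q.2.2) = fun q : V d × V d × V d =>
      IG G q.1 ((1 / 2 : ℝ) • (fderiv ℝ G q.1 q.2.1 q.2.2 + fderiv ℝ G q.1 q.2.2 q.2.1 -
      ∑ i : Fin d, ⟪fderiv ℝ G q.1 (EuclideanSpace.single i 1) q.2.1, q.2.2⟫_ℝ •
        (EuclideanSpace.single i (1 : ℝ) : V d))) := by
    funext q
    exact GCH_chr hG q.1 q.2.1 q.2.2
  rw [e]
  have ha : ContDiff ℝ ∞ (fun q : V d × V d × V d => fderiv ℝ G q.1 q.2.1 q.2.2) :=
    (hf1.clm_apply h2).clm_apply h3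
  have hb : ContDiff ℝ ∞ (fun q : V d × V d × V d => fderiv ℝ G q.1 q.2.2 q.2.1) :=
    (hf1.clm_apply h3).clm_apply h2
  have hc : ∀ i : Fin d, ContDiff ℝ ∞ (fun q : V d × V d × V d =>
      ⟪fderiv ℝ G q.1 (EuclideanSpace.single i 1) q.2.1, q.2.2⟫_ℝ • (EuclideanSpace.single i (1 : ℝ) : V d)) := by
    intro i
    have h4 : ContDiff ℝ ∞ (fun q : V d × V d × V d => fderiv ℝ G q.1 (EuclideanSpace.single i 1) q.2.1) :=
      (hf1.clm_apply contDiff_const).clm_apply h2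
    exact (h4.inner ℝ h3).smul contDiff_const
  have hs : ContDiff ℝ ∞ (fun q : V d × V d × V d => ∑ i : Fin d,
      ⟪fderiv ℝ G q.1 (EuclideanSpace.single i 1) q.2.1, q.2.2⟫_ℝ • (EuclideanSpace.single i (1 : ℝ) : V d)) :=
    ContDiff.sum fun i _ => hc i
  have ht : ContDiff ℝ ∞ (fun q : V d × V d × V d => fderiv ℝ G q.1 q.2.1 q.2.2 + fderiv ℝ G q.1 q.2.2 q.2.1 -
      ∑ i : Fin d, ⟪fderiv ℝ G q.1 (EuclideanSpace.single i 1) q.2.1, q.2.2⟫_ℝ •
        (EuclideanSpace.single i (1 : ℝ) : V d)) := (ha.add hb).sub hs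
  have hI : ContDiff ℝ ∞ (fun q : V d × V d × V d => IG G q.1) := hIG.comp h1
  exact hI.clm_apply (ht.const_smul (1 / 2 : ℝ))

theorem GCH_proof (hGIN : GIN_stmt) : GCH_stmt := by
  intro d G hG
  obtain ⟨hinv, hsym, hpos, hsm, hder⟩ := hGIN d G hG
  have hlin2 : ∀ (x u v v' : V d) (a : ℝ), Chr G x u (v + a • v') = Chr G x u v + a • Chr G x u v' := by
    intro x u v v' a
    rw [GCH_chrSymm hG x u, GCH_lin hG, GCH_chrSymm hG x v, GCH_chrSymm hG x v']
  have hK : ∀ x u v w, 2 * ⟪G x (Chr G x u v), w⟫_ℝ = ⟪fderiv ℝ G x u v, w⟫_ℝ + ⟪fderiv ℝ G x v u, w⟫_ℝ -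
      ⟪fderiv ℝ G x w u, v⟫_ℝ := by
    intro x u v w
    have h1 : G x (Chr G x u v) = (1 / 2 : ℝ) • (fderiv ℝ G x u v + fderiv ℝ G x v u -
        gradient (fun y => ⟪G y u, v⟫_ℝ) x) := (hinv x _).2
    rw [h1, real_inner_smul_left, inner_sub_left, inner_add_left, GCH_grad hG]
    ring
  have hM : ∀ x u v w, ⟪fderiv ℝ G x u v, w⟫_ℝ = ⟪G x (Chr G x u v), w⟫_ℝ + ⟪G x v, Chr G x u w⟫_ℝ := by
    intro x u v w
    have h1 := hK x u v w
    have h2 := hK x u w v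
    have h3 : ⟪G x v, Chr G x u w⟫_ℝ = ⟪G x (Chr G x u w), v⟫_ℝ := by
      rw [hG.symm x v, real_inner_comm]
    have h4 := GCH_symm hG x w v u
    have h5 := GCH_symm hG x u w v
    have h6 := GCH_symm hG x w u v
    have h7 := GCH_symm hG x v u w
    have h8 := GCH_symm hG x v w u
    rw [h3]
    linarith [GCH_symm hG x u v w, GCH_symm hG x v w u]
  have hT : ∀ x u ξ w, ⟪ChT G x u ξ, w⟫_ℝ = ⟪ξ, Chr G x u w⟫_ℝ := by
    intro x u ξ w
    let L : V d →ₗ[ℝ] V d :=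
      { toFun := fun w => Chr G x u w
        map_add' := fun a b => by
          have := hlin2 x u a b 1
          rw [one_smul, one_smul] at this
          exact this
        map_smul' := fun a b => by
          have h0 : Chr G x u 0 = 0 := by
            have := hlin2 x u 0 0 1
            rw [one_smul, one_smul, add_zero] at this
            exact left_eq_add.mp this
          have := hlin2 x u 0 b a
          rw [zero_add, h0, zero_add] at this
          exact this }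
    have h1 : Chr G x u w = ∑ i : Fin d, ⟪EuclideanSpace.single i (1 : ℝ), w⟫_ℝ •
        Chr G x u (EuclideanSpace.single i (1 : ℝ)) := by
      show L w = ∑ i : Fin d, ⟪EuclideanSpace.single i (1 : ℝ), w⟫_ℝ • L (EuclideanSpace.single i (1 : ℝ))
      conv_lhs => rw [GCH_expand w, map_sum]
      refine Finset.sum_congr rfl fun i _ => ?_
      rw [map_smul]
    rw [ChT, sum_inner, h1, inner_sum]
    refine Finset.sum_congr rfl fun i _ => ?_
    rw [real_inner_smul_left, real_inner_smul_right, mul_comm]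
  have hsC := GCH_smooth hG hsm
  refine ⟨GCH_chrSymm hG, GCH_lin hG, hsC, hK, hM, hT, ?_, ?_⟩
  · have h1 : ContDiff ℝ ∞ (fun q : V d × V d × V d => q.1) := contDiff_fst
    have h2 : ContDiff ℝ ∞ (fun q : V d × V d × V d => q.2.1) := contDiff_fst.comp contDiff_snd
    have h3 : ContDiff ℝ ∞ (fun q : V d × V d × V d => q.2.2) := contDiff_snd.comp contDiff_snd
    unfold ChT
    refine ContDiff.sum fun i _ => ?_
    have h4 : ContDiff ℝ ∞ (fun q : V d × V d × V d => Chr G q.1 q.2.1 (EuclideanSpace.single i 1)) :=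
      hsC.comp (h1.prodMk (h2.prodMk contDiff_const))
    exact (h3.inner ℝ h4).smul contDiff_const
  · intro x u v
    refine ext_inner_right ℝ fun w => ?_
    rw [inner_add_left, hT, hM]

end Pool.Agent.VD
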