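import Pool.Agent.helper84.VD.SpecB3

/-!
Row `vd:SGB` (MP_07c750_an, project VD): uniform bounds of the metric over a compact set.
-/

set_option autoImplicit false

open scoped ContDiff Topology InnerProductSpace ENNReal
open MeasureTheory Filter Set

namespace Pool.Agent.VD

noncomputable section

theorem SGB_ChT_sub {d : ℕ} (G : V d → V d →L[ℝ] V d) (x u ξ ξ' : V d) : ChT G x u (ξ - ξ') = ChT G x u ξ - ChT G x u ξ' := by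
  unfold ChT
  rw [← Finset.sum_sub_distrib]
  refine Finset.sum_congr rfl fun i _ => ?_
  rw [inner_sub_left, sub_smul]

theorem SGB_ham {d : ℕ} (hGXH : GXH_stmt) {G : V d → V d →L[ℝ] V d} (hG : IsMetric G) (p : P d) : ‖fderiv ℝ (Ham G) p‖ ≤ 2 * ‖XH G p‖ := by
  obtain ⟨-, -, -, -, -, h6, -⟩ := hGXH d G hG
  refine ContinuousLinearMap.opNorm_le_bound _ (by positivity) fun w => ?_
  rw [h6 p w]
  have h1 : |⟪vel G p, w.2⟫_ℝ| ≤ ‖XH G p‖ * ‖w‖ := (abs_real_inner_le_norm _ _).trans (mul_le_mul (norm_fst_le (XH G p)) (norm_snd_le w) (norm_nonneg _) (norm_nonneg _))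
  have h2 : |⟪(XH G p).2, w.1⟫_ℝ| ≤ ‖XH G p‖ * ‖w‖ := (abs_real_inner_le_norm _ _).trans (mul_le_mul (norm_snd_le (XH G p)) (norm_fst_le w) (norm_nonneg _) (norm_nonneg _))
  rw [Real.norm_eq_abs]
  calc |⟪vel G p, w.2⟫_ℝ - ⟪(XH G p).2, w.1⟫_ℝ| ≤ |⟪vel G p, w.2⟫_ℝ| + |⟪(XH G p).2, w.1⟫_ℝ| := abs_sub _ _
    _ ≤ 2 * ‖XH G p‖ * ‖w‖ := by linarith

theorem SGB_hamd {d : ℕ} (hGXH : GXH_stmt) {G : V d → V d →L[ℝ] V d} (hG : IsMetric G) (p q : P d) : ‖fderiv ℝ (Ham G) p - fderiv ℝ (Ham G) q‖ ≤ 2 * ‖XH G p - XH G q‖ := by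
  obtain ⟨-, -, -, -, -, h6, -⟩ := hGXH d G hG
  refine ContinuousLinearMap.opNorm_le_bound _ (by positivity) fun w => ?_
  rw [ContinuousLinearMap.sub_apply, h6 p w, h6 q w]
  have h0 : ⟪vel G p, w.2⟫_ℝ - ⟪(XH G p).2, w.1⟫_ℝ - (⟪vel G q, w.2⟫_ℝ - ⟪(XH G q).2, w.1⟫_ℝ) = ⟪(XH G p - XH G q).1, w.2⟫_ℝ - ⟪(XH G p - XH G q).2, w.1⟫_ℝ := by
    show _ = ⟪vel G p - vel G q, w.2⟫_ℝ - ⟪(XH G p).2 - (XH G q).2, w.1⟫_ℝ
    rw [inner_sub_left, inner_sub_left]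
    ring
  have h1 : |⟪(XH G p - XH G q).1, w.2⟫_ℝ| ≤ ‖XH G p - XH G q‖ * ‖w‖ := (abs_real_inner_le_norm _ _).trans (mul_le_mul (norm_fst_le _) (norm_snd_le w) (norm_nonneg _) (norm_nonneg _))
  have h2 : |⟪(XH G p - XH G q).2, w.1⟫_ℝ| ≤ ‖XH G p - XH G q‖ * ‖w‖ := (abs_real_inner_le_norm _ _).trans (mul_le_mul (norm_snd_le _) (norm_fst_le w) (norm_nonneg _) (norm_nonneg _))
  rw [Real.norm_eq_abs, h0]
  calc |⟪(XH G p - XH G q).1, w.2⟫_ℝ - ⟪(XH G p - XH G q).2, w.1⟫_ℝ| ≤ |⟪(XH G p - XH G q).1, w.2⟫_ℝ| + |⟪(XH G p - XH G q).2, w.1⟫_ℝ| := abs_sub _ _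
    _ ≤ 2 * ‖XH G p - XH G q‖ * ‖w‖ := by linarith

theorem SGB_proof (hGIN : GIN_stmt) (hGXH : GXH_stmt) (hGUI : GUI_stmt) (hGUX : GUX_stmt) (hGNR : GNR_stmt) (hGUR : GUR_stmt) (hGCH : GCH_stmt) : SGB_stmt := by
  intro d Γ _ _ K K' k B hK'
  obtain ⟨r0, hr0⟩ := hK'.isBounded.subset_closedBall (0 : V d)
  obtain ⟨m, hm⟩ := exists_nat_ge (r0 + 1)
  obtain ⟨CN, hCN, hN⟩ := hGNR d B m
  obtain ⟨CI, hI⟩ := hGUI d B m 0
  obtain ⟨CR, hR⟩ := hGUR d B m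
  obtain ⟨X0, hX0⟩ := hGUX d B m 0 (CN + 1)
  obtain ⟨X1, hX1⟩ := hGUX d B m 1 (CN + 1)
  have a1 := abs_nonneg (B m 0)
  have a2 := abs_nonneg CI
  have a3 := abs_nonneg CR
  have a4 := abs_nonneg X0
  have a5 := abs_nonneg X1
  have a6 : 0 ≤ |CR| * (CN + 2) := by positivity
  refine ⟨CN + |B m 0| + |CI| + 2 * |X0| + 2 * |X1| + (1 + |CR| * (CN + 2)), by linarith, fun G hG => ?_⟩
  have hx : ∀ z ∈ SK K' G, ‖z.1‖ + 1 ≤ m := fun z hz => by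
    have h1 := hr0 hz.1
    rw [mem_closedBall_zero_iff] at h1
    linarith
  have hz2 : ∀ z ∈ SK K' G, ‖z.2‖ ≤ CN := fun z hz => by
    have h1 := (hN G hG.met hG.lo hG.bd z (by linarith [hx z hz])).1
    rwa [hz.2, mul_one] at h1
  have hb : ∀ z ∈ SK K' G, ∀ p : P d, ‖p - z‖ ≤ 1 → ‖p.1‖ ≤ m ∧ ‖p.2‖ ≤ CN + 1 := fun z hz p hp => by
    have h1 : ‖p.1 - z.1‖ ≤ 1 := (norm_fst_le (p - z)).trans hp
    have h2 : ‖p.2 - z.2‖ ≤ 1 := (norm_snd_le (p - z)).trans hp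
    have h3 := norm_le_norm_add_norm_sub' p.1 z.1
    have h4 := norm_le_norm_add_norm_sub' p.2 z.2
    have h5 := hx z hz
    have h6 := hz2 z hz
    constructor <;> linarith
  have hXb : ∀ z ∈ SK K' G, ∀ p : P d, ‖p - z‖ ≤ 1 → ‖XH G p‖ ≤ |X0| := fun z hz p hp => by
    have h1 := hX0 G hG.met hG.lo hG.bd p (hb z hz p hp).1 (hb z hz p hp).2
    rw [norm_iteratedFDeriv_zero] at h1
    exact h1.trans (le_abs_self _)
  have hXd : ∀ z ∈ SK K' G, ∀ p : P d, ‖p - z‖ ≤ 1 → ‖fderiv ℝ (XH G) p‖ ≤ |X1| := fun z hz p hp => by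
    have h1 := hX1 G hG.met hG.lo hG.bd p (hb z hz p hp).1 (hb z hz p hp).2
    rw [norm_iteratedFDeriv_one] at h1
    exact h1.trans (le_abs_self _)
  have hXs : ContDiff ℝ ∞ (XH G) := (hGXH d G hG.met).2.1
  have hT : ∀ x u v : V d, ‖x‖ ≤ m → ‖ChT G x u v‖ ≤ |CR| * ‖u‖ * ‖v‖ := fun x u v h =>
    ((hR G hG.met hG.lo hG.bd).1 x u v h).2.trans (by gcongr; exact le_abs_self _)
  have hT2 : ∀ x y u v : V d, ‖x‖ ≤ m → ‖y‖ ≤ m → ‖ChT G x u v - ChT G y u v‖ ≤ |CR| * ‖x - y‖ * ‖u‖ * ‖v‖ := fun x y u v h h' =>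
    ((hR G hG.met hG.lo hG.bd).2.1 x y u v h h').2.trans (by gcongr; exact le_abs_self _)
  refine ⟨fun z hz => ?_, fun z hz p q hp hq => ?_, fun z hz p v hp => ?_⟩
  · have hzm : ‖z.1‖ ≤ m := by linarith [hx z hz]
    have h2 := hz2 z hz
    refine ⟨by linarith, ?_, ?_, fun u => ?_, fun v => ?_⟩
    · have h3 := hG.bd m 0 z.1 hzm
      rw [norm_iteratedFDeriv_zero] at h3
      linarith [le_abs_self (B m 0)]
    · have h3 := hI G hG.met hG.lo hG.bd z.1 hzm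
      rw [norm_iteratedFDeriv_zero] at h3
      linarith [le_abs_self CI]
    · have h3 := ((hN G hG.met hG.lo hG.bd z hzm).2.2.2 u).1
      have h4 : 0 ≤ ⟪G z.1 u, u⟫_ℝ := by
        by_contra h5
        have h6 : ‖u‖ ^ 2 < 0 := h3.trans_lt (mul_neg_of_pos_of_neg (by linarith) (not_le.1 h5))
        linarith [sq_nonneg ‖u‖]
      refine h3.trans (mul_le_mul_of_nonneg_right (by linarith) h4)
    · have h3 : ‖Wc G z v‖ ≤ ‖v.2‖ + ‖ChT G z.1 v.1 z.2‖ := norm_sub_le _ _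
      have h4 := hT z.1 v.1 z.2 hzm
      have h5 : |CR| * ‖v.1‖ * ‖z.2‖ ≤ |CR| * ‖v‖ * CN := by
        gcongr
        exact norm_fst_le v
      have h6 : ‖v.2‖ ≤ ‖v‖ := norm_snd_le v
      have h7 : ‖Wc G z v‖ ≤ (1 + |CR| * CN) * ‖v‖ := by nlinarith
      refine h7.trans (mul_le_mul_of_nonneg_right ?_ (norm_nonneg _))
      nlinarith
  · have h1 := SGB_ham hGXH hG.met p
    have h2 := hXb z hz p hp
    refine ⟨by linarith, (SGB_hamd hGXH hG.met p q).trans ?_⟩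
    have h3 : ‖XH G p - XH G q‖ ≤ |X1| * ‖p - q‖ := by
      refine Convex.norm_image_sub_le_of_norm_fderiv_le (𝕜 := ℝ) (s := Metric.closedBall z 1) (fun y _ => (hXs.differentiable (by norm_num)) y) (fun y hy => ?_) (convex_closedBall z 1) ?_ ?_
      · exact hXd z hz y (by rwa [mem_closedBall_iff_norm] at hy)
      · rwa [mem_closedBall_iff_norm]
      · rwa [mem_closedBall_iff_norm]
    have h4 : 0 ≤ ‖p - q‖ := norm_nonneg _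
    calc 2 * ‖XH G p - XH G q‖ ≤ (2 * |X1|) * ‖p - q‖ := by linarith
      _ ≤ _ := mul_le_mul_of_nonneg_right (by linarith) h4
  · have hp1 := hb z hz p hp
    have hzm : ‖z.1‖ ≤ m := by linarith [hx z hz]
    have e1 : Qc G p v - Qc G z v = -⟪(ChT G p.1 v.1 p.2 - ChT G z.1 v.1 p.2) + ChT G z.1 v.1 (p.2 - z.2), v.1⟫_ℝ := by
      unfold Qc Wc
      rw [SGB_ChT_sub, inner_sub_left, inner_sub_left, inner_add_left, inner_sub_left, inner_sub_left]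
      ring
    have h1 := hT2 p.1 z.1 v.1 p.2 hp1.1 hzm
    have h2 := hT z.1 v.1 (p.2 - z.2) hzm
    have h3 : ‖p.1 - z.1‖ ≤ ‖p - z‖ := norm_fst_le (p - z)
    have h4 : ‖p.2 - z.2‖ ≤ ‖p - z‖ := norm_snd_le (p - z)
    have h5 : ‖v.1‖ ≤ ‖v‖ := norm_fst_le v
    have h6 : |CR| * ‖p.1 - z.1‖ * ‖v.1‖ * ‖p.2‖ ≤ |CR| * ‖p - z‖ * ‖v‖ * (CN + 1) := by
      gcongr
      exact hp1.2
    have h7 : |CR| * ‖v.1‖ * ‖p.2 - z.2‖ ≤ |CR| * ‖v‖ * ‖p - z‖ := by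
      gcongr
    have h8 : ‖(ChT G p.1 v.1 p.2 - ChT G z.1 v.1 p.2) + ChT G z.1 v.1 (p.2 - z.2)‖ ≤ |CR| * (CN + 2) * ‖p - z‖ * ‖v‖ :=
      (norm_add_le _ _).trans (by nlinarith)
    rw [e1, abs_neg]
    have h9 : 0 ≤ ‖p - z‖ * ‖v‖ ^ 2 := by positivity
    calc |⟪(ChT G p.1 v.1 p.2 - ChT G z.1 v.1 p.2) + ChT G z.1 v.1 (p.2 - z.2), v.1⟫_ℝ|
        ≤ ‖(ChT G p.1 v.1 p.2 - ChT G z.1 v.1 p.2) + ChT G z.1 v.1 (p.2 - z.2)‖ * ‖v.1‖ := abs_real_inner_le_norm _ _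
      _ ≤ (|CR| * (CN + 2) * ‖p - z‖ * ‖v‖) * ‖v‖ := mul_le_mul h8 h5 (norm_nonneg _) (by positivity)
      _ = (|CR| * (CN + 2)) * (‖p - z‖ * ‖v‖ ^ 2) := by ring
      _ ≤ (CN + |B m 0| + |CI| + 2 * |X0| + 2 * |X1| + (1 + |CR| * (CN + 2))) * (‖p - z‖ * ‖v‖ ^ 2) := mul_le_mul_of_nonneg_right (by linarith) h9
      _ = _ := by ring

end

end Pool.Agent.VD
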