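import Pool.Agent.helper84.VD.SpecB5

/-!
Row `vd:UBR` (MP_07c750_an, project VD): the big step kernel is supported on chains of unit steps.
-/

set_option autoImplicit false

open scoped ContDiff Topology InnerProductSpace ENNReal
open MeasureTheory Filter Set

namespace Pool.Agent.VD

noncomputable section

theorem UBR_us {d : ℕ} {Γ : Type} [Group Γ] [MulAction Γ (V d)] (G : V d → V d →L[ℝ] V d) (Φ : ℝ → P d → P d) (r0 : ℝ) (χ : V d → ℝ) (ch : ℝ → ℝ) (A : Par) (R : ℝ) (y y' : YS Γ d)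
    (h : us G Φ r0 χ ch A R y y' ≠ 0) : St G Φ r0 (A.r R) R y y' := by
  by_contra h1
  apply h
  unfold us
  rw [if_neg h1]

theorem UBR_usn {d : ℕ} {Γ : Type} [Group Γ] [MulAction Γ (V d)] (G : V d → V d →L[ℝ] V d) (Φ : ℝ → P d → P d) (r0 : ℝ) (χ : V d → ℝ) (ch : ℝ → ℝ) (A : Par) (R : ℝ) (n : ℕ) :
    ∀ y y' : YS Γ d, usn G Φ r0 χ ch A R n y y' ≠ 0 → RC G Φ r0 (A.r R) R n y y' := by
  induction n with
  | zero => exact fun y y' h => UBR_us G Φ r0 χ ch A R y y' h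
  | succ n ih =>
    intro y y' h
    by_contra h1
    apply h
    show Pool.Agent.VQ.cmZ (mY Γ d) (us G Φ r0 χ ch A R) (usn G Φ r0 χ ch A R n) y y' = 0
    unfold Pool.Agent.VQ.cmZ
    refine integral_eq_zero_of_ae (Eventually.of_forall fun x => ?_)
    show us G Φ r0 χ ch A R y x * usn G Φ r0 χ ch A R n x y' = 0
    by_contra h2
    exact h1 ⟨x, UBR_us G Φ r0 χ ch A R y x (left_ne_zero_of_mul h2), ih x y' (right_ne_zero_of_mul h2)⟩

theorem UBR_proof : UBR_stmt := by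
  intro d Γ _ _ G Φ r0 χ ch A R y y' h
  exact UBR_usn G Φ r0 χ ch A R (A.n R) y y' h

end

end Pool.Agent.VD
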